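import Pool.Agent.N328.LF.Pre

set_option autoImplicit false

/-!
# `1/2`-flow-pairs with prescribed 2-flow in almost all lifts of a cubic graph (MP_e59a69_co)

Let `B` be a connected bridgeless cubic multigraph and let `F` be a 2-factor of `B` without
triangles (there is one). All but a proportion `C / N` of the `N`-lifts `G` of `B` have a
`1/2`-flow-pair `(φ₂, φ₄)` such that `φ₂` is nonzero exactly on the lift of `F`.

The condition on triangles is necessary: if a triangle of `F` lifts to a triangle, which happens
with a probability bounded away from zero, then there is no such pair with this support (three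
integers of absolute values 2 or 3 do not have the sum zero).

Proof. By union bounds almost all lifts `G` of `B` are edge expanders (with a constant that depends
on `B` only), and every set of at most `k` vertices of `G` spans at most as many edges as it has
vertices, for a prescribed constant `k` (`N849/LF`, `N492/LF`). The lift of `F` is a 2-factor of `G`
all of whose odd cycles have at least five vertices. The odd cycles of the lift of `F` have vertices
which are pairwise far apart (Haxell's theorem on independent transversals, library `H185C`,
`H185E`), these are paired, and the flow with prescribed boundary at these vertices which gives the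
second member of a `1/2`-flow-pair exists by the cut condition, since a cut which separates many of
these vertices is large (`N835/LF`).
-/

namespace Pool.Agent.Results.MP_e59a69_co.AlmostAllLifts

open Finset Pool.Agent.H160R2.HF Pool.Agent.N328.LF

/-- Let `B` be a finite connected bridgeless cubic multigraph. Then `B` has a 2-factor `F` without
triangles (no set of exactly three vertices is a union of components of `F`). For every such 2-factor
`F` of `B` there is a constant `C` such that for all `N ≥ 1` the number of the choices of
permutations `p e` of `Fin N`, `e` an edge of `B`, for which the `N`-lift `lift B p` of `B` has no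
`1/2`-flow-pair `(φ₂, φ₄)` with `φ₂` nonzero exactly on the lift of `F` is at most `C / N` times the
number `(N!) ^ |E|` of all choices. -/
theorem result (V E : Type) [Fintype V] [Fintype E] [DecidableEq V] [DecidableEq E]
    (B : OrGraph V E) (hc : B.Cubic) (hB : Connected B) (hb : B.Bridgeless) :
    (∃ F : Finset E, B.IsTwoFactor F ∧ ∀ X : Finset V, B.cut X ∩ F = ∅ → X.card ≠ 3) ∧
    ∀ F : Finset E, B.IsTwoFactor F → (∀ X : Finset V, B.cut X ∩ F = ∅ → X.card ≠ 3) →
      ∃ C : ℝ, ∀ N : ℕ, 1 ≤ N →
        (({p : E → Equiv.Perm (Fin N) | ¬ ∃ φ₂ φ₄ : E × Fin N → ℤ,
          (lift B p).IsHalfFlowPair φ₂ φ₄ ∧ ∀ x, φ₂ x ≠ 0 ↔ x.1 ∈ F}.ncard : ℕ) : ℝ) ≤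
          C / N * ((N.factorial : ℝ) ^ Fintype.card E) :=
  ⟨exists_factor B hc hb, fun F hF h3 => prescribed B hc hb hB F hF h3⟩

end Pool.Agent.Results.MP_e59a69_co.AlmostAllLifts
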