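import Pool.Agent.R129.Hfp.Main
import Pool.Agent.R129.Hfp.Ears
import Pool.Agent.N399.DM.Main

/-!
# `1/2`-flow-pairs: dominating sets (MP_e59a69_co)

Two vertices are called close if they are joined by an edge or by two different paths with two edges.
Let `G` be a bridgeless multigraph which has a dominating set `D` such that every vertex of `D` is
close to all but at most two of the other vertices of `D`; for example a graph with domination number
at most three or total domination number at most four, or with a dominating clique, a dominating
complete multipartite subgraph with classes of at most three vertices, or a dominating circuit of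
length five.  Then `G` has a `1/2`-flow-pair, and at every vertex with exactly three edges (loops not
counted) every admissible choice of the values extends to a `1/2`-flow-pair of `G`.

Proof.  The class is closed under the identification of vertices.  Let `H` be a graph obtained from
`G` by identification of vertices which has no nowhere-zero flow over the group of order four and no
Petersen quotient, with as few edges (apart from loops) as possible.  By helper890's files `R890/FF`
(Kempe chains, and the theorem on at most 16 odd vertices of the starting library `TH362/TF`) `H` has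
no circuit with at most four edges, every vertex which is not isolated has at least three neighbours,
and there are at least 18 vertices which are not isolated.  In `H`, close vertices are adjacent.  It
follows (`N399/DM/Ext.lean`) that `H` has a dominating set `J` which is an independent set of three
vertices, two disjoint edges, or a circuit of length five: the non-adjacency graph of `J` is a circuit
`v_0 ... v_{k-1}` with `k` = 3, 4 or 5.  Every vertex outside of `J` (except one vertex adjacent to all
of `J`, if `k = 3`) has exactly three neighbours, one in `J`, say `v_i`, and one each in the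
neighbourhoods of `v_{i-1}` and `v_{i+1}` (`N399/DM/Str.lean`).  So `H - J` consists of circuits whose
vertices are adjacent to `v_0, v_1, ..., v_{k-1}, v_0, ...` in this order, and a nowhere-zero flow is
obtained from a colouring of the edges of these circuits with period `k` after the change of at most
two periods (`N399/DM/Cases.lean`).  This is a contradiction.  So `G` and every graph obtained from it
by identification of vertices has a nowhere-zero 4-flow, or ten classes of vertices form a Petersen
graph, and the induction of `R129/Hfp/Main.lean` applies.
-/

set_option autoImplicit false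

namespace Pool.Agent.Results.MP_e59a69_co.DominatingSet

open Finset Pool.Agent.H160R2.HF Pool.Agent.R129.Hfp

/-- The edge `e` joins the vertices `x` and `y`. -/
def Joins {V E : Type} (G : OrGraph V E) (e : E) (x y : V) : Prop :=
  (G.t e = x ∧ G.h e = y) ∨ (G.t e = y ∧ G.h e = x)

/-- The vertices `x` and `y` are joined by an edge, or by two different paths with two edges (for
example, they have two common neighbours). -/
def Close {V E : Type} (G : OrGraph V E) (x y : V) : Prop :=
  (∃ e, Joins G e x y) ∨
    ∃ (e f e' f' : E) (a b : V), (e ≠ e' ∨ f ≠ f') ∧ Joins G e x a ∧ Joins G f a y ∧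
      Joins G e' x b ∧ Joins G f' b y

/-- `α e, β e` are admissible values of a `1/2`-flow-pair at the edges `e` of `w` (without loops):
the two sums of the outgoing values are zero, `|α e| ≤ 1`, `|β e| ≤ 3`, and `|β e| ≥ 2` if
`α e = 0`. -/
def Admissible {V E : Type} [Fintype V] [Fintype E] [DecidableEq V] [DecidableEq E]
    (G : OrGraph V E) (w : V) (α β : E → ℤ) : Prop :=
  ∑ e ∈ G.cut {w}, (if G.t e = w then α e else - α e) = 0 ∧
  ∑ e ∈ G.cut {w}, (if G.t e = w then β e else - β e) = 0 ∧
  ∀ e ∈ G.cut {w}, |α e| ≤ 1 ∧ |β e| ≤ 3 ∧ (α e = 0 → 2 ≤ |β e|)

/-- Let `D` be a set of vertices of a bridgeless multigraph `G` such that every vertex outside of `D`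
which has a neighbour (other than itself) is close to a vertex of `D`, and every vertex of `D` is
close to all but at most two of the other vertices of `D`.  Then `G` has a `1/2`-flow-pair, and all
admissible values at a vertex with three edges extend. -/
theorem result (V E : Type) [Fintype V] [DecidableEq V] [Fintype E] [DecidableEq E]
    (G : OrGraph V E) (hB : G.Bridgeless) (D : Finset V)
    (hD1 : ∀ x, x ∉ D → (∃ e, G.t e ≠ G.h e ∧ (G.t e = x ∨ G.h e = x)) → ∃ d ∈ D, Close G x d)
    (hD2 : ∀ d ∈ D, ∀ W : Finset V, W ⊆ D → (∀ c ∈ W, c ≠ d ∧ ¬ Close G d c) → W.card ≤ 2) :
    (∃ φ₂ φ₄ : E → ℤ, G.IsHalfFlowPair φ₂ φ₄) ∧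
      ∀ w, (G.cut {w}).card = 3 → ∀ α β : E → ℤ, Admissible G w α β →
        ∃ φ₂ φ₄ : E → ℤ, G.IsHalfFlowPair φ₂ φ₄ ∧ ∀ e ∈ G.cut {w}, φ₂ e = α e ∧ φ₄ e = β e := by
  have hC : N399.DM.Cl G.t G.h := ⟨D, hD1, hD2⟩
  obtain ⟨h1, h2⟩ := main (fun G' => N399.DM.Cl G'.t G'.h)
    (fun G' ρ h => h.map ρ)
    (fun G' h hb => by
      rcases h.flow (n1_of hb) with h | h
      · exact Or.inl (nzK_of h)
      · exact Or.inr h) _ G rfl hC (G.cut_card_ne_one hB)
  exact ⟨h1, fun w hw α β ⟨a, b, c⟩ => h2 w hw α β a b c⟩

end Pool.Agent.Results.MP_e59a69_co.DominatingSet
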