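import Pool.Agent.R129.Hfp.Ears
import Pool.Agent.R129.Hfp.Main
import Pool.Agent.N410.DC.Chain

/-!
# `1/2`-flow-pairs: eighteen disjoint odd cuts (MP_e59a69_co)

Let `G` be a bridgeless multigraph in which any 18 pairwise disjoint sets of vertices with odd
boundaries have at least 67 boundary edges in total (by parity: at least 68); for example a graph
with `n` vertices in which every vertex has at least `max (16, (n - 17) / 18)` different neighbours,
or a graph without 12 disjoint sets of vertices with exactly three boundary edges each.  Then `G` has
a `1/2`-flow-pair, and at every vertex with exactly three edges (loops not counted) every admissible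
choice of the values extends to a `1/2`-flow-pair of `G`.  More generally the condition is only needed
for sets without boundary edges in the union `F` of a chain of circuits or ears with at most four new
edges and of doubly connected pieces.

Proof.  After the contraction of `F` let `H` be a quotient without nowhere-zero 4-flow and without
Petersen quotient such that all proper quotients of `H` have a flow.  At least 18 vertices of `H` have
odd degree (starting library, `TH362/TF`), and no vertex has degree one or two.  A set of `k ≥ 2`
vertices of `H` spans at most `2 k - 3` edges: otherwise a minimal dense set has an orientation in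
which exactly two edges leave each vertex apart from a root (Hall), hence two disjoint connectors
(Edmonds' branching theorem), and a flow of the quotient by this set can be lifted.  So the sum of
`4 - d(y)` over the vertices `y` of `H` which are not isolated is at least six, and this gives 18
vertices of odd degree with at most 66 edges; their classes are 18 disjoint sets of `G`.  So `G` and
every bridgeless graph obtained from it by identification of vertices has a nowhere-zero 4-flow, or
ten classes of vertices form a Petersen graph, and the induction of `R129/Hfp/Main.lean` applies.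
-/

set_option autoImplicit false

namespace Pool.Agent.Results.MP_e59a69_co.EighteenOddCuts

open Finset Pool.Agent.H160R2.HF Pool.Agent.R129.Hfp

/-- The edges with exactly one end in `X`. -/
def boundary {V E : Type} [DecidableEq V] [Fintype E] (G : OrGraph V E) (X : Finset V) : Finset E :=
  univ.filter (fun e => ¬ (G.t e ∈ X ↔ G.h e ∈ X))

/-- The union of the sets `C j` with `j < i`. -/
def earlier {E : Type} [DecidableEq E] {m : ℕ} (C : Fin m → Finset E) (i : Fin m) : Finset E :=
  (univ.filter (fun j => j < i)).biUnion C

/-- `H` can be added to the chain after `F`: either (short) `H` has at most four edges outside `F`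
and no bridge modulo `F`: no set `Y` of vertices without boundary edges in `F` has exactly one
boundary edge in `H`; or (doubly connected) `H` contains two disjoint sets each of which connects,
modulo `F`, whatever `H` connects: every set `Y` of vertices without boundary edges in `F` and with
a boundary edge in `H` has boundary edges in both sets. -/
def Adds {V E : Type} [DecidableEq V] [Fintype E] [DecidableEq E] (G : OrGraph V E)
    (F H : Finset E) : Prop :=
  ((H \ F).card ≤ 4 ∧ ∀ Y : Finset V, Disjoint (boundary G Y) F →
    (boundary G Y ∩ H).card ≠ 1) ∨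
  ∃ T₁ T₂ : Finset E, T₁ ⊆ H ∧ T₂ ⊆ H ∧ Disjoint T₁ T₂ ∧ ∀ Y : Finset V,
    Disjoint (boundary G Y) F → ¬ Disjoint (boundary G Y) H →
      ¬ Disjoint (boundary G Y) T₁ ∧ ¬ Disjoint (boundary G Y) T₂

/-- Every vertex has at least `k` different neighbours. -/
def Neighbours {V E : Type} (G : OrGraph V E) (k : ℕ) : Prop :=
  ∀ v : V, ∃ W : Finset V, k ≤ W.card ∧
    ∀ w ∈ W, w ≠ v ∧ ∃ e, (G.t e = v ∧ G.h e = w) ∨ (G.t e = w ∧ G.h e = v)

/-- For some chain of sets of edges (for instance the empty chain) any 18 pairwise disjoint sets of
vertices with odd boundaries which contain no edge of the chain have at least 67 boundary edges in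
total; or the graph is dense: every vertex has at least `k` different neighbours, and there are at
most `18 k + 17` vertices and `k ≥ 16`, or at most `17 k + 16` vertices and `k ≥ 10`, or at most
`12 k + 11` vertices and `k ≥ 4` (the dense bridgeless graphs satisfy the first condition with the
empty chain). -/
def LargeOddCuts {V E : Type} [Fintype V] [DecidableEq V] [Fintype E] [DecidableEq E]
    (G : OrGraph V E) : Prop :=
  (∃ (m : ℕ) (C : Fin m → Finset E), (∀ i, Adds G (earlier C i) (C i)) ∧
    ∀ X : Fin 18 → Finset V, (∀ i j, i ≠ j → Disjoint (X i) (X j)) →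
      (∀ i, Disjoint (boundary G (X i)) (univ.biUnion C)) → (∀ i, Odd (boundary G (X i)).card) →
      67 ≤ ∑ i, (boundary G (X i)).card) ∨
  ∃ k : ℕ, Neighbours G k ∧
    ((16 ≤ k ∧ Fintype.card V < 18 * (k + 1)) ∨ (10 ≤ k ∧ Fintype.card V < 17 * (k + 1)) ∨
      (4 ≤ k ∧ Fintype.card V < 12 * (k + 1)))

/-- `α e, β e` are admissible values of a `1/2`-flow-pair at the edges `e` of `w` (without loops):
the two sums of the outgoing values are zero, `|α e| ≤ 1`, `|β e| ≤ 3`, and `|β e| ≥ 2` if
`α e = 0`. -/
def Admissible {V E : Type} [Fintype V] [Fintype E] [DecidableEq V] [DecidableEq E]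
    (G : OrGraph V E) (w : V) (α β : E → ℤ) : Prop :=
  ∑ e ∈ G.cut {w}, (if G.t e = w then α e else - α e) = 0 ∧
  ∑ e ∈ G.cut {w}, (if G.t e = w then β e else - β e) = 0 ∧
  ∀ e ∈ G.cut {w}, |α e| ≤ 1 ∧ |β e| ≤ 3 ∧ (α e = 0 → 2 ≤ |β e|)

/-- Let `G` be a bridgeless multigraph with large odd cuts.  Then `G` has a `1/2`-flow-pair, and all
admissible values at a vertex with three edges extend. -/
theorem result (V E : Type) [Fintype V] [DecidableEq V] [Fintype E] [DecidableEq E]
    (G : OrGraph V E) (hB : G.Bridgeless) (h : LargeOddCuts G) :
    (∃ φ₂ φ₄ : E → ℤ, G.IsHalfFlowPair φ₂ φ₄) ∧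
      ∀ w, (G.cut {w}).card = 3 → ∀ α β : E → ℤ, Admissible G w α β →
        ∃ φ₂ φ₄ : E → ℤ, G.IsHalfFlowPair φ₂ φ₄ ∧ ∀ e ∈ G.cut {w}, φ₂ e = α e ∧ φ₄ e = β e := by
  have hC : N410.DC.Cl G.t G.h := by
    rcases h with ⟨m, C, hC, hO⟩ | ⟨k, hk, hn⟩
    · exact N410.DC.Cl.of_steps hC hO
    · exact N410.DC.Cl.of_nbrs (n1_of (G.cut_card_ne_one hB)) hk hn
  obtain ⟨h1, h2⟩ := main (fun G' => N410.DC.Cl G'.t G'.h)
    (fun G' ρ h => h.map ρ)
    (fun G' h hb => by
      rcases h.flow (n1_of hb) with h | h
      · exact Or.inl (nzK_of h)
      · exact Or.inr h) _ G rfl hC (G.cut_card_ne_one hB)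
  exact ⟨h1, fun w hw α β ⟨a, b, c⟩ => h2 w hw α β a b c⟩

end Pool.Agent.Results.MP_e59a69_co.EighteenOddCuts
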