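import Pool.Agent.R129.Hfp.Ears
import Pool.Agent.R129.Hfp.Main
import Pool.Agent.N410.DC.Far

/-!
# Pairs of a 2-flow and a 4-flow: five sets with three boundary edges (MP_e59a69_co)

Let `G` be a finite multigraph without cut edges such that among any five pairwise disjoint sets of
vertices with exactly three boundary edges two are joined by an edge, or by two different paths with
two edges. Then `G` has a `1/2`-flow-pair, with arbitrary admissible values at a vertex of degree
three.

For example, this holds if all edge cuts with three edges isolate a vertex and the vertices of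
degree three have independence number at most four. There is no condition on the order, and the
number of the edge cuts with three edges is not bounded. More generally the condition is only needed
for sets without boundary edges in the union `F` of a chain of circuits or ears with at most four
new edges and of doubly connected pieces.

Proof. After the contraction of `F` let `H` be a quotient without nowhere-zero 4-flow and without
Petersen quotient such that all proper quotients of `H` have a flow. At least 18 vertices of `H`
have odd degree, no vertex has degree one or two, and `H` has girth at least five (starting library,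
`TH362/TF`). A set of `k ≥ 2` vertices of `H` spans at most `2 k - 3` edges (`N410/DC/Sparse.lean`:
Hall's theorem, Edmonds' branching theorem, and lifting of flows). So the sum of `4 - d(y)` over the
vertices `y` of `H` which are not isolated is at least six, and hence at least twelve vertices have
degree three. As `H` has girth at least five, five of them are pairwise not adjacent; their classes
are five disjoint sets of vertices of `G` with three boundary edges, and no two of them are close.

So `G` has a nowhere-zero 4-flow, or ten classes of vertices form a Petersen graph; the condition is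
inherited by quotients, and the flow pairs of the smaller graphs are glued with the theorem
`R129/Hfp` of the starting library.
-/

set_option autoImplicit false

namespace Pool.Agent.Results.MP_e59a69_co.FarThreeCuts

open Finset Pool.Agent.H160R2.HF Pool.Agent.R129.Hfp

/-- The edges with exactly one end in `X`. -/
def boundary {V E : Type} [DecidableEq V] [Fintype E] (G : OrGraph V E) (X : Finset V) : Finset E :=
  univ.filter (fun e => ¬ (G.t e ∈ X ↔ G.h e ∈ X))

/-- The union of the sets `C j` with `j < i`. -/
def earlier {E : Type} [DecidableEq E] {m : ℕ} (C : Fin m → Finset E) (i : Fin m) : Finset E :=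
  (univ.filter (fun j => j < i)).biUnion C

/-- `H` can be added to the chain after `F`: either (short) `H` has at most four edges outside `F`
and no bridge modulo `F`: no set `Y` of vertices without boundary edges in `F` has exactly one
boundary edge in `H`; or (doubly connected) `H` contains two disjoint sets each of which connects,
modulo `F`, whatever `H` connects: every set `Y` of vertices without boundary edges in `F` and with
a boundary edge in `H` has boundary edges in both sets. -/
def Adds {V E : Type} [DecidableEq V] [Fintype E] [DecidableEq E] (G : OrGraph V E)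
    (F H : Finset E) : Prop :=
  ((H \ F).card ≤ 4 ∧ ∀ Y : Finset V, Disjoint (boundary G Y) F →
    (boundary G Y ∩ H).card ≠ 1) ∨
  ∃ T₁ T₂ : Finset E, T₁ ⊆ H ∧ T₂ ⊆ H ∧ Disjoint T₁ T₂ ∧ ∀ Y : Finset V,
    Disjoint (boundary G Y) F → ¬ Disjoint (boundary G Y) H →
      ¬ Disjoint (boundary G Y) T₁ ∧ ¬ Disjoint (boundary G Y) T₂

/-- The edge `e` joins the set `X` and the vertex `a`. -/
def Joins {V E : Type} (G : OrGraph V E) (X : Finset V) (a : V) (e : E) : Prop :=
  (G.t e ∈ X ∧ G.h e = a) ∨ (G.t e = a ∧ G.h e ∈ X)

/-- The sets `X` and `Y` are joined by an edge, or by two different paths with two edges. -/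
def Close {V E : Type} (G : OrGraph V E) (X Y : Finset V) : Prop :=
  (∃ e, (G.t e ∈ X ∧ G.h e ∈ Y) ∨ (G.t e ∈ Y ∧ G.h e ∈ X)) ∨
    ∃ (e f e' f' : E) (a b : V), (e ≠ e' ∨ f ≠ f') ∧ Joins G X a e ∧ Joins G Y a f ∧
      Joins G X b e' ∧ Joins G Y b f'

/-- For some chain of sets of edges (for instance the empty chain) among any five pairwise disjoint
sets of vertices with exactly three boundary edges, none of them in the chain, two are close. -/
def NeverFar {V E : Type} [Fintype V] [DecidableEq V] [Fintype E] [DecidableEq E]
    (G : OrGraph V E) : Prop :=
  ∃ (m : ℕ) (C : Fin m → Finset E), (∀ i, Adds G (earlier C i) (C i)) ∧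
    ∀ X : Fin 5 → Finset V, (∀ i j, i ≠ j → Disjoint (X i) (X j)) →
      (∀ i, Disjoint (boundary G (X i)) (univ.biUnion C)) → (∀ i, (boundary G (X i)).card = 3) →
      ∃ i j, i ≠ j ∧ Close G (X i) (X j)

/-- `α e, β e` are admissible values of a `1/2`-flow-pair at the edges `e` of `w` (without loops):
the two sums of the outgoing values are zero, `|α e| ≤ 1`, `|β e| ≤ 3`, and `|β e| ≥ 2` if
`α e = 0`. -/
def Admissible {V E : Type} [Fintype V] [Fintype E] [DecidableEq V] [DecidableEq E]
    (G : OrGraph V E) (w : V) (α β : E → ℤ) : Prop :=
  ∑ e ∈ G.cut {w}, (if G.t e = w then α e else - α e) = 0 ∧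
  ∑ e ∈ G.cut {w}, (if G.t e = w then β e else - β e) = 0 ∧
  ∀ e ∈ G.cut {w}, |α e| ≤ 1 ∧ |β e| ≤ 3 ∧ (α e = 0 → 2 ≤ |β e|)

/-- Let `G` be a bridgeless multigraph which satisfies the condition above.  Then `G` has a
`1/2`-flow-pair, and all admissible values at a vertex with three edges extend. -/
theorem result (V E : Type) [Fintype V] [DecidableEq V] [Fintype E] [DecidableEq E]
    (G : OrGraph V E) (hB : G.Bridgeless) (h : NeverFar G) :
    (∃ φ₂ φ₄ : E → ℤ, G.IsHalfFlowPair φ₂ φ₄) ∧
      ∀ w, (G.cut {w}).card = 3 → ∀ α β : E → ℤ, Admissible G w α β →
        ∃ φ₂ φ₄ : E → ℤ, G.IsHalfFlowPair φ₂ φ₄ ∧ ∀ e ∈ G.cut {w}, φ₂ e = α e ∧ φ₄ e = β e := by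
  obtain ⟨m, C, hC, hO⟩ := h
  have hC : N410.DC.GCl N410.DC.Far5 G.t G.h := N410.DC.GCl.of_steps hC hO
  obtain ⟨h1, h2⟩ := main (fun G' => N410.DC.GCl N410.DC.Far5 G'.t G'.h)
    (fun G' ρ h => h.map N410.DC.inh_far5 ρ)
    (fun G' h hb => by
      rcases h.flow N410.DC.inh_far5 (n1_of hb) with h | h
      · exact Or.inl (nzK_of h)
      · exact Or.inr h) _ G rfl hC (G.cut_card_ne_one hB)
  exact ⟨h1, fun w hw α β ⟨a, b, c⟩ => h2 w hw α β a b c⟩

end Pool.Agent.Results.MP_e59a69_co.FarThreeCuts
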